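import Pool.Agent.H338R3.Spl.Except

set_option autoImplicit false

namespace Pool.Agent.Results.MP_1e9343_ag.FiniteExceptions

open H338Spl Polynomial

universe u

/-- **Main theorem.** Let `R` be a splinter, of any (also mixed) characteristic, and `T` a finite
`R[X]`-algebra with `Spec T → Spec R[X]` surjective. Then `R[X] → T` splits at all but finitely many
of the primes of `R[X]` that contain a polynomial `X - r` with `r ∈ R`, and an exceptional prime
lies over a prime of `R` that is contained in only finitely many primes of `R`. -/
theorem result (R : Type u) [CommRing R] (hR : IsSplinter R) (T : Type u) [CommRing T]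
    [Algebra R[X] T] (hfin : Module.Finite R[X] T)
    (hs : Function.Surjective (PrimeSpectrum.comap (algebraMap R[X] T))) :
    (Exc R T).Finite ∧ ∀ n ∈ Exc R T,
      {q : PrimeSpectrum R | n.asIdeal.comap C ≤ q.asIdeal}.Finite :=
  ⟨exc_finite hR T hs, fun n hn => exc_small hR T hs n hn⟩

end Pool.Agent.Results.MP_1e9343_ag.FiniteExceptions
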