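import Pool.Agent.H338R3.Spl.Main

set_option autoImplicit false

namespace Pool.Agent.Results.MP_1e9343_ag.NagataRingAllChar

open H338Spl

universe u

/-- **Main theorem.** Let `R` be a splinter, of any (also mixed) characteristic. Then the Nagata
ring `R(X)`, the localisation of `R[X]` at the polynomials whose coefficients generate the unit
ideal, is a splinter. -/
theorem result (R : Type u) [CommRing R] (hR : IsSplinter R) : IsSplinter (NagataRing R) :=
  splinter_nagata hR

end Pool.Agent.Results.MP_1e9343_ag.NagataRingAllChar
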