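import Pool.Agent.H338R3.Spl.Main

set_option autoImplicit false

namespace Pool.Agent.Results.MP_1e9343_ag.PolynomialPrimeChar

open H338Spl

universe u

/-- **Main theorem.** Let `R` be a splinter of prime characteristic `p` (Noetherian, no further
hypothesis). Then every polynomial ring `R[X_1, ..., X_n]` is a splinter.

Sketch of the proof, for a finite `R[X]`-algebra `T` with `Spec T → Spec R[X]` surjective.
(1) The ideal `{ψ 1 : ψ ∈ Hom (T, R[X])}` of `R[X]` contains with `f` all coefficients of `f`:
compose `t ↦ ψ (t ^ q)`, `q = p ^ e > deg f`, with the projections of the free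
`(F^e R)[X]`-module `F^e (R[X])` and with splittings of finite subextensions of `R → F^e R`.
(2) It contains an `f` whose coefficients generate the unit ideal: for a suitable monic `g`, regular
on `Ext^1 (T, R[X])`, an `R`-linear splitting of `R → T/gT` gives an `R[X]`-linear map
`T → R[X]/(g)` by duality for the extension `R → R[X]/(g)`, and this map lifts to `R[X]`. -/
theorem result (R : Type u) [CommRing R] (hR : IsSplinter R) (p : ℕ) (hp : p.Prime) [CharP R p]
    (n : ℕ) : IsSplinter (MvPolynomial (Fin n) R) := by
  have : Fact p.Prime := ⟨hp⟩
  exact splinter_mvPolynomial hR p n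

end Pool.Agent.Results.MP_1e9343_ag.PolynomialPrimeChar
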